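import Pool.Agent.Helper317.TP.Tarski

/-!
There is a model of `RCA₀ + BΣ₂ + ¬IΣ₂` with a tree `T`, defined by a `Π⁰₁` formula without
parameters, such that some path `g` of `T` preserves `BΣ₂`, while no path of `T` is first-order
definable with parameters.
-/

namespace Pool.Agent.Results.MP_ea6e61_lc.NoDefinablePath

open Pool.Agent.Helper317.SOA

/-- The negated form of the question holds: there are a model `M` of `RCA₀ + BΣ₂ + ¬IΣ₂` and a
tree `T` of (codes of) `M`-finite sequences, `Π⁰₁` in `M` without parameters (in particular `Π⁰₁`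
relative to the jump), such that some path `g` of `T` satisfies `M[g] ⊨ BΣ₂`, while no path of
`T` whatsoever is first-order definable over `M` with parameters from `M`. -/
theorem result : ∃ M : Model, RCA0 M ∧ BSigma 2 M ∧ ¬ ISigma 2 M ∧
    ∃ T : Set M.Num, M.IsTree T ∧ M.Pi1Set T ∧
      (∃ g : M.Num → M.Num, M.IsPath T g ∧ BSigma 2 (M.adjoin g)) ∧
      ∀ h : M.Num → M.Num, M.IsPath T h → ¬ M.ArithDef h :=
  Pool.Agent.Helper317.TP.main

end Pool.Agent.Results.MP_ea6e61_lc.NoDefinablePath
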